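import Pool.Agent.H324.SQ.Stm

/-!
Project SQ (helper324), job SQ-MAIN: the final assembly.
-/

open Finset Filter Topology

namespace Pool.Agent.Y10.SQ

open Pool.Agent.H324.SQ Pool.Agent.Helper530.Sq

theorem exp_ge (h N : ℕ) (hh : 3 ≤ h) (hN : 1 ≤ N) (hN2 : N < 2 ^ ((h + 1) ^ 10)) :
    (1 / 16 : ℝ) ^ (h ^ 3) ≤ Real.exp (-(Real.log N) ^ (3 / 10 : ℝ)) := by
  have hN1 : (1 : ℝ) ≤ N := by exact_mod_cast hN
  have hl0 : 0 ≤ Real.log N := Real.log_nonneg hN1
  have hlog2 : Real.log 2 ≤ 1 := by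
    have := Real.log_two_lt_d9
    linarith
  have h1 : Real.log N ≤ ((h : ℝ) + 1) ^ 10 := by
    have h2 : (N : ℝ) ≤ (2 : ℝ) ^ ((h + 1) ^ 10) := by exact_mod_cast hN2.le
    have h3 : Real.log N ≤ Real.log ((2 : ℝ) ^ ((h + 1) ^ 10)) :=
      Real.log_le_log (by linarith) h2
    rw [Real.log_pow] at h3
    push_cast at h3
    have h4 : 0 ≤ ((h : ℝ) + 1) ^ 10 := by positivity
    nlinarith
  have h5 : (Real.log N) ^ (3 / 10 : ℝ) ≤ ((h : ℝ) + 1) ^ 3 := by
    refine (Real.rpow_le_rpow hl0 h1 (by norm_num)).trans (le_of_eq ?_)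
    rw [← Real.rpow_natCast, ← Real.rpow_mul (by positivity)]
    have h6 : ((10 : ℕ) : ℝ) * (3 / 10) = ((3 : ℕ) : ℝ) := by norm_num
    rw [h6, Real.rpow_natCast]
  have h7 : ((h : ℝ) + 1) ^ 3 ≤ (64 / 27) * (h : ℝ) ^ 3 := by
    have h8 : (3 : ℝ) ≤ h := by exact_mod_cast hh
    have h9 : (h : ℝ) + 1 ≤ 4 / 3 * h := by linarith
    calc ((h : ℝ) + 1) ^ 3 ≤ (4 / 3 * h) ^ 3 := pow_le_pow_left₀ (by positivity) h9 3
      _ = (64 / 27) * (h : ℝ) ^ 3 := by ring
  have h10 : (1 / 16 : ℝ) ^ (h ^ 3) = Real.exp (-(4 * (h : ℝ) ^ 3 * Real.log 2)) := by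
    have h11 : (1 / 16 : ℝ) = Real.exp (-(4 * Real.log 2)) := by
      rw [Real.exp_neg, show (4 : ℝ) * Real.log 2 = Real.log (2 ^ 4) by
        rw [Real.log_pow]; norm_num, Real.exp_log (by norm_num)]
      norm_num
    rw [h11, ← Real.exp_nat_mul]
    congr 1
    push_cast
    ring
  rw [h10]
  apply Real.exp_le_exp.2
  have h12 := Real.log_two_gt_d9
  have h13 : (0 : ℝ) ≤ (h : ℝ) ^ 3 := by positivity
  nlinarith

theorem exists_h (H N : ℕ) (hH : 1 ≤ H) (hN : 2 ^ (H ^ 10) ≤ N) :
    ∃ h : ℕ, H ≤ h ∧ 2 ^ (h ^ 10) ≤ N ∧ N < 2 ^ ((h + 1) ^ 10) := by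
  have hex : ∃ h : ℕ, N < 2 ^ ((h + 1) ^ 10) := by
    refine ⟨N, ?_⟩
    calc N < 2 ^ N := Nat.lt_two_pow_self
      _ ≤ 2 ^ ((N + 1) ^ 10) := by
        apply Nat.pow_le_pow_right (by norm_num)
        calc N ≤ N + 1 := by omega
          _ ≤ (N + 1) ^ 10 := Nat.le_self_pow (by norm_num) _
  classical
  obtain ⟨h, hh, hmin⟩ : ∃ h : ℕ, N < 2 ^ ((h + 1) ^ 10) ∧
      ∀ j < h, ¬ N < 2 ^ ((j + 1) ^ 10) :=
    ⟨Nat.find hex, Nat.find_spec hex, fun j hj => Nat.find_min hex hj⟩
  have hHh : H ≤ h := by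
    by_contra hcon
    have h1 : h + 1 ≤ H := by omega
    have h2 : 2 ^ ((h + 1) ^ 10) ≤ 2 ^ (H ^ 10) :=
      Nat.pow_le_pow_right (by norm_num) (Nat.pow_le_pow_left h1 10)
    omega
  refine ⟨h, hHh, ?_, hh⟩
  have h3 := hmin (h - 1) (by omega)
  rw [show h - 1 + 1 = h by omega] at h3
  omega

theorem cnt_le (k q a N : ℕ) : cnt k q a N ≤ N := by
  unfold cnt
  exact (Finset.card_filter_le _ _).trans (by rw [Finset.card_range])

theorem swap_sum (q a N : ℕ) :
    ∑ n ∈ (range N).filter (fun n => n % q = a % q),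
      ((range (n + 1)).filter (fun k => 2 * k < n ∧ Squarefree (n.choose k))).card =
    ∑ k ∈ range N, cnt k q a N := by
  have h1 : ∀ n ∈ (range N).filter (fun n => n % q = a % q),
      ((range (n + 1)).filter (fun k => 2 * k < n ∧ Squarefree (n.choose k))).card =
      ∑ k ∈ range N, if (2 * k < n ∧ Squarefree (n.choose k)) then 1 else 0 := by
    intro n hn
    rw [Finset.mem_filter, Finset.mem_range] at hn
    rw [← Finset.card_filter]
    congr 1
    ext k
    rw [Finset.mem_filter, Finset.mem_filter, Finset.mem_range, Finset.mem_range]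
    constructor
    · rintro ⟨_, b, c⟩; exact ⟨by omega, b, c⟩
    · rintro ⟨_, b, c⟩; exact ⟨by omega, b, c⟩
  rw [Finset.sum_congr rfl h1, Finset.sum_comm]
  refine Finset.sum_congr rfl fun k _ => ?_
  unfold cnt
  rw [← Finset.card_filter, Finset.filter_filter]

theorem mid_card (q a N : ℕ) :
    ∑ n ∈ (range N).filter (fun n => n % q = a % q),
      ((range (n + 1)).filter (fun k => 2 * k = n ∧ Squarefree (n.choose k))).card ≤
    ((range N).filter (fun k => 2 * k < N ∧ Squarefree ((2 * k).choose k))).card := by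
  have h1 : ∑ n ∈ (range N).filter (fun n => n % q = a % q),
      ((range (n + 1)).filter (fun k => 2 * k = n ∧ Squarefree (n.choose k))).card ≤
      ∑ n ∈ range N,
      ((range (n + 1)).filter (fun k => 2 * k = n ∧ Squarefree (n.choose k))).card :=
    Finset.sum_le_sum_of_subset_of_nonneg (Finset.filter_subset _ _) (fun _ _ _ => Nat.zero_le _)
  refine h1.trans (le_of_eq ?_)
  have h2 : ∀ n ∈ range N,
      ((range (n + 1)).filter (fun k => 2 * k = n ∧ Squarefree (n.choose k))).card =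
      ∑ k ∈ range N, if (2 * k = n ∧ Squarefree (n.choose k)) then 1 else 0 := by
    intro n hn
    rw [Finset.mem_range] at hn
    rw [← Finset.card_filter]
    congr 1
    ext k
    rw [Finset.mem_filter, Finset.mem_filter, Finset.mem_range, Finset.mem_range]
    constructor
    · rintro ⟨_, b, c⟩; exact ⟨by omega, b, c⟩
    · rintro ⟨_, b, c⟩; exact ⟨by omega, b, c⟩
  rw [Finset.sum_congr rfl h2, Finset.sum_comm, Finset.card_filter]
  refine Finset.sum_congr rfl fun k _ => ?_
  rw [← Finset.card_filter]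
  by_cases hk : 2 * k < N ∧ Squarefree ((2 * k).choose k)
  · rw [if_pos hk, Finset.card_eq_one]
    refine ⟨2 * k, ?_⟩
    ext n
    rw [Finset.mem_filter, Finset.mem_range, Finset.mem_singleton]
    constructor
    · rintro ⟨_, b, _⟩; exact b.symm
    · intro hn
      subst hn
      exact ⟨hk.1, rfl, hk.2⟩
  · rw [if_neg hk, Finset.card_eq_zero, Finset.filter_eq_empty_iff]
    rintro n hn ⟨b, c⟩
    rw [Finset.mem_range] at hn
    subst b
    exact hk ⟨hn, c⟩

theorem choose_aux (j : ℕ) (h : Squarefree ((2 * (j + 1)).choose (j + 1))) :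
    Squarefree ((2 * j + 1).choose j) := by
  apply h.squarefree_of_dvd
  have h1 : (2 * (j + 1)).choose (j + 1) = (2 * j + 1).choose j + (2 * j + 1).choose (j + 1) := by
    rw [show 2 * (j + 1) = (2 * j + 1) + 1 by ring]
    exact Nat.choose_succ_succ _ _
  rw [h1, Nat.choose_symm_half]
  exact dvd_add dvd_rfl dvd_rfl

theorem mid_le (M N : ℕ) :
    ((range N).filter (fun k => 2 * k < N ∧ Squarefree ((2 * k).choose k))).card ≤
      (M + 1) + ∑ k ∈ Ico M N, cnt k 1 0 N := by
  set T := (range N).filter (fun k => 2 * k < N ∧ Squarefree ((2 * k).choose k)) with hT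
  have h1 : T ⊆ range (M + 1) ∪ T.filter (fun k => M + 1 ≤ k) := by
    intro k hk
    rw [Finset.mem_union, Finset.mem_range, Finset.mem_filter]
    by_cases h : k < M + 1
    · exact Or.inl h
    · exact Or.inr ⟨hk, by omega⟩
  refine (Finset.card_le_card h1).trans ((Finset.card_union_le _ _).trans ?_)
  rw [Finset.card_range]
  refine Nat.add_le_add_left ?_ _
  have hinj : Set.InjOn (fun k : ℕ => k - 1) (T.filter (fun k => M + 1 ≤ k) : Finset ℕ) := by
    intro x hx y hy hxy
    rw [Finset.mem_coe, Finset.mem_filter] at hx hy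
    simp only at hxy
    omega
  calc (T.filter (fun k => M + 1 ≤ k)).card
      = ((T.filter (fun k => M + 1 ≤ k)).image (fun k => k - 1)).card :=
        (Finset.card_image_of_injOn hinj).symm
    _ = ∑ k ∈ (T.filter (fun k => M + 1 ≤ k)).image (fun k => k - 1), 1 := by
        rw [Finset.card_eq_sum_ones]
    _ ≤ ∑ k ∈ (T.filter (fun k => M + 1 ≤ k)).image (fun k => k - 1), cnt k 1 0 N := by
        refine Finset.sum_le_sum fun k hk => ?_
        rw [Finset.mem_image] at hk
        obtain ⟨x, hx, rfl⟩ := hk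
        rw [hT, Finset.mem_filter, Finset.mem_filter, Finset.mem_range] at hx
        obtain ⟨⟨hx1, hx2, hx3⟩, hx4⟩ := hx
        obtain ⟨j, rfl⟩ : ∃ j, x = j + 1 := ⟨x - 1, by omega⟩
        rw [Nat.add_sub_cancel]
        unfold cnt
        rw [Nat.one_le_iff_ne_zero, Finset.card_ne_zero]
        refine ⟨2 * j + 1, ?_⟩
        rw [Finset.mem_filter, Finset.mem_range]
        exact ⟨by omega, by omega, by omega, choose_aux j hx3⟩
    _ ≤ ∑ k ∈ Ico M N, cnt k 1 0 N := by
        refine Finset.sum_le_sum_of_subset_of_nonneg ?_ (fun _ _ _ => Nat.zero_le _)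
        intro k hk
        rw [Finset.mem_image] at hk
        obtain ⟨x, hx, rfl⟩ := hk
        rw [hT, Finset.mem_filter, Finset.mem_filter, Finset.mem_range] at hx
        rw [Finset.mem_Ico]
        omega

theorem rows (q a N : ℕ) :
    ∑ n ∈ (range N).filter (fun n => n % q = a % q),
      ((range (n + 1)).filter (fun k => Squarefree (n.choose k))).card =
    2 * ∑ k ∈ range N, cnt k q a N +
    ∑ n ∈ (range N).filter (fun n => n % q = a % q),
      ((range (n + 1)).filter (fun k => 2 * k = n ∧ Squarefree (n.choose k))).card := by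
  rw [← swap_sum, Finset.mul_sum, ← Finset.sum_add_distrib]
  exact Finset.sum_congr rfl fun n _ => SqFAsm.row_split n

theorem rows_le (q a N : ℕ) :
    ∑ n ∈ (range N).filter (fun n => n % q = a % q),
      ((range (n + 1)).filter (fun k => Squarefree (n.choose k))).card ≤ N * N := by
  calc ∑ n ∈ (range N).filter (fun n => n % q = a % q),
      ((range (n + 1)).filter (fun k => Squarefree (n.choose k))).card
      ≤ ∑ n ∈ range N, ((range (n + 1)).filter (fun k => Squarefree (n.choose k))).card :=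
        Finset.sum_le_sum_of_subset_of_nonneg (Finset.filter_subset _ _)
          (fun _ _ _ => Nat.zero_le _)
    _ ≤ ∑ n ∈ range N, N := by
        refine Finset.sum_le_sum fun n hn => ?_
        rw [Finset.mem_range] at hn
        refine (Finset.card_filter_le _ _).trans ?_
        rw [Finset.card_range]
        omega
    _ = N * N := by rw [Finset.sum_const, Finset.card_range, smul_eq_mul]

theorem main (hA : S_ASM1) : S_MAIN := by
  obtain ⟨D, r, hD, hr0, hr1, hasm⟩ := hA
  -- choice of the parameter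
  obtain ⟨m, hm1, hm4, hrm⟩ : ∃ m : ℕ, 1 ≤ m ∧ 4 ≤ m ∧ r ^ m ≤ 1 / 16 := by
    have h1 : Tendsto (fun m : ℕ => r ^ m) atTop (𝓝 0) :=
      tendsto_pow_atTop_nhds_zero_of_lt_one hr0.le hr1
    have h2 := h1.eventually_le_const (show (0 : ℝ) < 1 / 16 by norm_num)
    obtain ⟨m, hm⟩ := ((h2.and (eventually_ge_atTop 4))).exists
    exact ⟨m, by omega, hm.2, hm.1⟩
  obtain ⟨h0, hh0⟩ := hasm m hm1
  obtain ⟨H, hH⟩ : ∃ H : ℕ, H = h0 + m + 4 := ⟨_, rfl⟩
  obtain ⟨N0, hN0⟩ : ∃ N0 : ℕ, N0 = 2 ^ (H ^ 10) := ⟨_, rfl⟩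
  obtain ⟨e0, he0⟩ : ∃ e0 : ℝ, e0 = Real.exp (-(Real.log N0) ^ (3 / 10 : ℝ)) := ⟨_, rfl⟩
  have he0pos : 0 < e0 := by rw [he0]; exact Real.exp_pos _
  obtain ⟨C, hC⟩ : ∃ C : ℝ, C = (6 + 7 * D) + (2 * N0 + 2 * (1 + D)) / e0 := ⟨_, rfl⟩
  have hN0nn : (0 : ℝ) ≤ N0 := Nat.cast_nonneg _
  have hCpos : 0 ≤ (2 * (N0 : ℝ) + 2 * (1 + D)) / e0 := by positivity
  refine ⟨C, fun q hq a => ?_⟩
  obtain ⟨ρ, hρ0, hρ1, hρs, hρz, -, hρt, hct, hdev⟩ := hh0 q hq a
  obtain ⟨-, -, -, -, -, -, -, hct1, -⟩ := hh0 1 one_pos 0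
  refine ⟨ρ, hρ0, hρs, ?_, fun N hN => ?_⟩
  · rw [← hρz]
    exact hρs.le_tsum 0 (fun j _ => hρ0 j)
  have hNr : (1 : ℝ) ≤ N := by exact_mod_cast hN
  have hS : ∑' k, ρ k ≤ 1 + D := by
    rw [hρs.tsum_eq_zero_add]
    have h1 := hρt 0
    rw [pow_zero, pow_zero, mul_one] at h1
    have h2 := hρ1 0
    linarith
  have hS0 : 0 ≤ ∑' k, ρ k := tsum_nonneg hρ0
  by_cases hsmall : N < N0
  · -- small N
    have hNN : (N : ℝ) ≤ N0 := by exact_mod_cast hsmall.le
    have hexp : e0 ≤ Real.exp (-(Real.log N) ^ (3 / 10 : ℝ)) := by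
      rw [he0]
      apply Real.exp_le_exp.2
      apply neg_le_neg
      apply Real.rpow_le_rpow (Real.log_nonneg hNr) _ (by norm_num)
      exact Real.log_le_log (by linarith) hNN
    have hB : (2 * (N0 : ℝ) + 2 * (1 + D)) * N ≤
        C * N * Real.exp (-(Real.log N) ^ (3 / 10 : ℝ)) := by
      calc (2 * (N0 : ℝ) + 2 * (1 + D)) * N
          = (2 * (N0 : ℝ) + 2 * (1 + D)) / e0 * N * e0 := by field_simp
        _ ≤ C * N * e0 := by
            have : (2 * (N0 : ℝ) + 2 * (1 + D)) / e0 ≤ C := by rw [hC]; linarith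
            gcongr
        _ ≤ C * N * Real.exp (-(Real.log N) ^ (3 / 10 : ℝ)) := by
            have : 0 ≤ C := by rw [hC]; linarith
            gcongr
    constructor
    · refine le_trans ?_ hB
      calc ∑ k ∈ range N, |(cnt k q a N : ℝ) - ρ k * N| ≤ ∑ k ∈ range N, (2 * (N0 : ℝ)) := by
            refine Finset.sum_le_sum fun k _ => ?_
            have h1 : (cnt k q a N : ℝ) ≤ N := by exact_mod_cast cnt_le k q a N
            have h2 : (0 : ℝ) ≤ (cnt k q a N : ℝ) := Nat.cast_nonneg _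
            have h3 : ρ k * N ≤ 1 * N := by
              have := hρ1 k
              gcongr
            have h4 : 0 ≤ ρ k * N := mul_nonneg (hρ0 k) (by linarith)
            rw [abs_le]
            constructor <;> linarith
        _ = 2 * (N0 : ℝ) * N := by
            rw [Finset.sum_const, Finset.card_range, nsmul_eq_mul]
            ring
        _ ≤ (2 * (N0 : ℝ) + 2 * (1 + D)) * N := by
            have : 0 ≤ 2 * (1 + D) := by linarith
            gcongr
            linarith
    · refine le_trans ?_ hB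
      have h1 : ((∑ n ∈ (range N).filter (fun n => n % q = a % q),
        ((range (n + 1)).filter (fun k => Squarefree (n.choose k))).card : ℕ) : ℝ) ≤ N * N := by
        exact_mod_cast rows_le q a N
      have h2 : (0 : ℝ) ≤ ((∑ n ∈ (range N).filter (fun n => n % q = a % q),
        ((range (n + 1)).filter (fun k => Squarefree (n.choose k))).card : ℕ) : ℝ) :=
        Nat.cast_nonneg _
      have h3 : (N : ℝ) * N ≤ N0 * N := by gcongr
      have h4 : 2 * (∑' k, ρ k) * N ≤ 2 * (1 + D) * N := by gcongr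
      have h5 : 0 ≤ 2 * (∑' k, ρ k) * N := by positivity
      have h6 : (0 : ℝ) ≤ N0 * N := by positivity
      rw [abs_le]
      constructor <;> linarith
  · -- large N
    have hsmall2 : 2 ^ (H ^ 10) ≤ N := by rw [← hN0]; omega
    obtain ⟨h, hHh, hNh, hNh2⟩ := exists_h H N (by omega) hsmall2
    have hexp := exp_ge h N (by omega) hN hNh2
    obtain ⟨e, he⟩ : ∃ e : ℝ, e = (1 / 16 : ℝ) ^ (h ^ 3) := ⟨_, rfl⟩
    rw [← he] at hexp
    have hepos : 0 < e := by rw [he]; positivity
    obtain ⟨i, hi⟩ : ∃ i : ℕ, i = m * h ^ 3 := ⟨_, rfl⟩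
    have h3pos : 1 ≤ h ^ 3 := Nat.one_le_pow _ _ (by omega)
    -- the three estimates
    have e1 : 1 / (2 : ℝ) ^ i ≤ e := by
      have h1 : (16 : ℝ) ^ (h ^ 3) ≤ 2 ^ i := by
        rw [show (16 : ℝ) = 2 ^ 4 by norm_num, ← pow_mul, hi]
        exact pow_le_pow_right₀ (by norm_num) (Nat.mul_le_mul_right _ hm4)
      rw [he, one_div_pow]
      exact one_div_le_one_div_of_le (by positivity) h1
    have e2 : r ^ i ≤ e := by
      rw [hi, pow_mul, he]
      exact pow_le_pow_left₀ (by positivity) hrm _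
    have e3 : (2 : ℝ) ^ i ≤ N * e := by
      have h1 : i + 4 * h ^ 3 ≤ h ^ 10 := by
        have h2 : m + 4 ≤ h ^ 7 := by
          calc m + 4 ≤ h := by omega
            _ ≤ h ^ 7 := Nat.le_self_pow (by norm_num) _
        calc i + 4 * h ^ 3 = (m + 4) * h ^ 3 := by rw [hi]; ring
          _ ≤ h ^ 7 * h ^ 3 := Nat.mul_le_mul_right _ h2
          _ = h ^ 10 := by rw [← pow_add]
      have h3 : (2 : ℝ) ^ i * 16 ^ (h ^ 3) ≤ N := by
        rw [show (16 : ℝ) = 2 ^ 4 by norm_num, ← pow_mul, ← pow_add]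
        calc (2 : ℝ) ^ (i + 4 * h ^ 3) ≤ 2 ^ (h ^ 10) := pow_le_pow_right₀ (by norm_num) h1
          _ ≤ N := by exact_mod_cast hNh
      rw [he, one_div_pow, mul_one_div, le_div_iff₀ (by positivity)]
      exact h3
    have he1 : e ≤ 1 := by rw [he]; exact pow_le_one₀ (by norm_num) (by norm_num)
    have hiN : 2 ^ i ≤ N := by
      have h1 : (2 : ℝ) ^ i ≤ N := by
        refine e3.trans ?_
        calc (N : ℝ) * e ≤ N * 1 := by gcongr
          _ = N := mul_one _
      exact_mod_cast h1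
    have e4 : (1 : ℝ) ≤ N * e := le_trans (one_le_pow₀ (by norm_num)) e3
    have hNe : (0 : ℝ) ≤ N * e := by positivity
    -- the tail of the densities
    have t1 : ∑' k, ρ (k + 2 ^ i) ≤ D * e := (hρt i).trans (by gcongr)
    have hsh : Summable (fun k => ρ (k + 2 ^ i)) := (summable_nat_add_iff (2 ^ i)).2 hρs
    have t2 : ∑ k ∈ Ico (2 ^ i) N, ρ k ≤ D * e := by
      rw [Finset.sum_Ico_eq_sum_range]
      refine le_trans ?_ t1
      have h1 := hsh.sum_le_tsum (range (N - 2 ^ i)) (fun j _ => hρ0 _)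
      refine le_trans (le_of_eq ?_) h1
      refine Finset.sum_congr rfl fun j _ => ?_
      rw [add_comm]
    have t3 : ∑' k, ρ (k + N) ≤ D * e := by
      have h1 := hρs.sum_add_tsum_nat_add N
      have h2 := hρs.sum_add_tsum_nat_add (2 ^ i)
      have h3 : ∑ k ∈ range (2 ^ i), ρ k ≤ ∑ k ∈ range N, ρ k :=
        Finset.sum_le_sum_of_subset_of_nonneg (Finset.range_subset_range.2 hiN)
          (fun k _ _ => hρ0 k)
      linarith
    have t4 : ((∑ k ∈ Ico (2 ^ i) N, cnt k q a N : ℕ) : ℝ) ≤ D * (N * e) := by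
      refine (hct N i N hN).trans ?_
      calc D * N * r ^ i ≤ D * N * e := by gcongr
        _ = D * (N * e) := by ring
    have t5 : ((∑ k ∈ Ico (2 ^ i) N, cnt k 1 0 N : ℕ) : ℝ) ≤ D * (N * e) := by
      refine (hct1 N i N hN).trans ?_
      calc D * N * r ^ i ≤ D * N * e := by gcongr
        _ = D * (N * e) := by ring
    -- the l^1 bound
    have L1 : ∑ k ∈ range N, |(cnt k q a N : ℝ) - ρ k * N| ≤ (2 + 2 * D) * (N * e) := by
      rw [← Finset.sum_range_add_sum_Ico _ hiN]
      have h1 : ∑ k ∈ range (2 ^ i), |(cnt k q a N : ℝ) - ρ k * N| ≤ 2 * (N * e) := by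
        calc ∑ k ∈ range (2 ^ i), |(cnt k q a N : ℝ) - ρ k * N|
            ≤ ∑ k ∈ range (2 ^ i), (2 * (N : ℝ) / 2 ^ (2 * m * h ^ 3)) := by
              refine Finset.sum_le_sum fun k hk => ?_
              rw [Finset.mem_range] at hk
              exact hdev h (by omega) k (by rw [← hi]; exact hk) N hNh
          _ = 2 * (N * (1 / 2 ^ i)) := by
              rw [Finset.sum_const, Finset.card_range, nsmul_eq_mul]
              have h2 : (2 : ℝ) ^ (2 * m * h ^ 3) = 2 ^ i * 2 ^ i := by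
                rw [← pow_add, hi]
                congr 1
                ring
              rw [h2]
              have h3 : (2 : ℝ) ^ i ≠ 0 := by positivity
              push_cast
              field_simp
          _ ≤ 2 * (N * e) := by gcongr
      have h4 : ∑ k ∈ Ico (2 ^ i) N, |(cnt k q a N : ℝ) - ρ k * N| ≤ 2 * D * (N * e) := by
        calc ∑ k ∈ Ico (2 ^ i) N, |(cnt k q a N : ℝ) - ρ k * N|
            ≤ ∑ k ∈ Ico (2 ^ i) N, ((cnt k q a N : ℝ) + ρ k * N) := by
              refine Finset.sum_le_sum fun k _ => ?_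
              have h2 : (0 : ℝ) ≤ (cnt k q a N : ℝ) := Nat.cast_nonneg _
              have h5 : 0 ≤ ρ k * N := mul_nonneg (hρ0 k) (by linarith)
              rw [abs_le]
              constructor <;> linarith
          _ = ((∑ k ∈ Ico (2 ^ i) N, cnt k q a N : ℕ) : ℝ) + (∑ k ∈ Ico (2 ^ i) N, ρ k) * N := by
              rw [Finset.sum_add_distrib, Finset.sum_mul]
              push_cast
              rfl
          _ ≤ D * (N * e) + (D * e) * N := by gcongr
          _ = 2 * D * (N * e) := by ring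
      linarith
    have hfin : ∀ x : ℝ, x ≤ (6 + 7 * D) * (N * e) →
        x ≤ C * N * Real.exp (-(Real.log N) ^ (3 / 10 : ℝ)) := by
      intro x hx
      refine hx.trans ?_
      have h1 : (6 + 7 * D) ≤ C := by rw [hC]; linarith
      have h2 : 0 ≤ C := by linarith
      calc (6 + 7 * D) * (N * e) ≤ C * (N * Real.exp (-(Real.log N) ^ (3 / 10 : ℝ))) := by gcongr
        _ = C * N * Real.exp (-(Real.log N) ^ (3 / 10 : ℝ)) := by ring
    constructor
    · apply hfin
      refine L1.trans ?_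
      gcongr ?_ * _
      linarith
    · apply hfin
      rw [rows]
      have hmid : ((∑ n ∈ (range N).filter (fun n => n % q = a % q),
          ((range (n + 1)).filter (fun k => 2 * k = n ∧ Squarefree (n.choose k))).card : ℕ) : ℝ)
          ≤ (2 + D) * (N * e) := by
        have h1 := (mid_card q a N).trans (mid_le (2 ^ i) N)
        have h2 : ((∑ n ∈ (range N).filter (fun n => n % q = a % q),
          ((range (n + 1)).filter (fun k => 2 * k = n ∧ Squarefree (n.choose k))).card : ℕ) : ℝ)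
          ≤ ((2 : ℝ) ^ i + 1) + ((∑ k ∈ Ico (2 ^ i) N, cnt k 1 0 N : ℕ) : ℝ) := by
          exact_mod_cast h1
        linarith
      have hmid0 : (0 : ℝ) ≤ ((∑ n ∈ (range N).filter (fun n => n % q = a % q),
          ((range (n + 1)).filter (fun k => 2 * k = n ∧ Squarefree (n.choose k))).card : ℕ) : ℝ) :=
        Nat.cast_nonneg _
      generalize (∑ n ∈ (range N).filter (fun n => n % q = a % q),
          ((range (n + 1)).filter (fun k => 2 * k = n ∧ Squarefree (n.choose k))).card) = mid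
        at hmid hmid0 ⊢
      have h3 := hρs.sum_add_tsum_nat_add N
      have h4 : |(∑ k ∈ range N, (cnt k q a N : ℝ)) - (∑ k ∈ range N, ρ k) * N| ≤
          (2 + 2 * D) * (N * e) := by
        refine le_trans ?_ L1
        rw [Finset.sum_mul, ← Finset.sum_sub_distrib]
        exact Finset.abs_sum_le_sum_abs _ _
      have h5 : 0 ≤ ∑' k, ρ (k + N) := tsum_nonneg fun k => hρ0 _
      have h6 : (∑' k, ρ (k + N)) * N ≤ D * (N * e) := by
        calc (∑' k, ρ (k + N)) * N ≤ (D * e) * N := by gcongr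
          _ = D * (N * e) := by ring
      have h7 : 0 ≤ (∑' k, ρ (k + N)) * N := by positivity
      rw [← h3]
      push_cast
      rw [abs_le] at h4 ⊢
      obtain ⟨h8, h9⟩ := h4
      have h10 : 2 * (∑ k ∈ range N, ρ k + ∑' k, ρ (k + N)) * N =
          2 * ((∑ k ∈ range N, ρ k) * N) + 2 * ((∑' k, ρ (k + N)) * N) := by ring
      rw [h10]
      generalize (∑ k ∈ range N, ρ k) * (N : ℝ) = X at h8 h9 ⊢
      generalize (∑' k, ρ (k + N)) * (N : ℝ) = Y at h6 h7 ⊢
      generalize (∑ k ∈ range N, (cnt k q a N : ℝ)) = Z at h8 h9 ⊢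
      generalize (N : ℝ) * e = W at h6 h8 h9 hmid hNe ⊢
      have hDW : 0 ≤ D * W := mul_nonneg hD.le hNe
      constructor <;> linarith

end Pool.Agent.Y10.SQ
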